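import Pool.Agent.H992.PM.Defs

/-!
# PM8 (helper640, for helper992): convergence of the polynomial means, positive weights
-/

set_option autoImplicit false
open MeasureTheory Filter Topology Complex ProbabilityTheory
open scoped ContDiff ENNReal

namespace Pool.Agent.H640.PM

open Pool.Agent.W745.RW (TF)
open Pool.Agent.N661.BR (MW IsRandomWave meas_eval lin)
open Pool.Agent.N661.BH (loc)
open Pool.Agent.N814.BHM (P mass Pz int_Pz)
open Pool.Agent.N814.BHASM (Hyp X probz probP mpos X_meas)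
open Pool.Agent.H992.LB (eγ eX fs val_fs SX_fs)
open Pool.Agent.H992.PM

variable {Ω : Set ℂ} {lam : ℕ → ℝ} {u : ℕ → ℂ → ℝ}

theorem chi_bd {χ : ℂ → ℝ} (hχ : TF Ω χ) : ∃ C : ℝ, ∀ z, |χ z| ≤ C := by
  obtain ⟨C, hC⟩ := hχ.2.1.exists_bound_of_continuous hχ.1.continuous
  exact ⟨C, fun z => by simpa using hC z⟩

theorem chi_meas {χ : ℂ → ℝ} (hχ : TF Ω χ) : Measurable fun p : ℂ × (ℝ × Bool) => χ p.1 :=
  hχ.1.continuous.measurable.comp measurable_fst

theorem chi_int (H : Hyp Ω lam u) {χ : ℂ → ℝ} (hχ : TF Ω χ) :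
    Integrable (fun p : ℂ × (ℝ × Bool) => χ p.1) (P Ω) := by
  have := probP H
  obtain ⟨C, hC⟩ := chi_bd hχ
  exact Integrable.of_bound (chi_meas hχ).aestronglyMeasurable C
    (Eventually.of_forall fun p => by rw [Real.norm_eq_abs]; exact hC _)

/-- the measure with weight `χ` -/
noncomputable def Qc (Ω : Set ℂ) (χ : ℂ → ℝ) : Measure (ℂ × (ℝ × Bool)) :=
  (P Ω).withDensity fun p => ENNReal.ofReal (χ p.1)

theorem int_Qc {E : Type} [NormedAddCommGroup E] [NormedSpace ℝ E] {χ : ℂ → ℝ} (hχ : TF Ω χ)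
    (h0 : ∀ z, 0 ≤ χ z) (F : ℂ × (ℝ × Bool) → E) :
    ∫ p, F p ∂(Qc Ω χ) = ∫ p, χ p.1 • F p ∂(P Ω) := by
  unfold Qc
  rw [integral_withDensity_eq_integral_toReal_smul (chi_meas hχ).ennreal_ofReal
    (Eventually.of_forall fun _ => ENNReal.ofReal_lt_top)]
  refine integral_congr_ae (Eventually.of_forall fun p => ?_)
  show (ENNReal.ofReal (χ p.1)).toReal • F p = χ p.1 • F p
  rw [ENNReal.toReal_ofReal (h0 _)]

theorem fin_Qc (H : Hyp Ω lam u) {χ : ℂ → ℝ} (hχ : TF Ω χ) : IsFiniteMeasure (Qc Ω χ) := by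
  unfold Qc
  refine isFiniteMeasure_withDensity ?_
  have := (chi_int H hχ).2
  have h2 : ∫⁻ p, ENNReal.ofReal (χ p.1) ∂(P Ω) ≤ ∫⁻ p, ‖χ p.1‖ₑ ∂(P Ω) := by
    refine lintegral_mono fun p => ?_
    exact ENNReal.ofReal_le_ofReal_iff' |>.2 (Or.inl (le_abs_self _)) |>.trans
      (by rw [← Real.enorm_eq_ofReal_abs])
  exact (lt_of_le_of_lt h2 this).ne

theorem mass_Qc (H : Hyp Ω lam u) {χ : ℂ → ℝ} (hχ : TF Ω χ) (h0 : ∀ z, 0 ≤ χ z) :
    ((Qc Ω χ) Set.univ).toReal = ∫ p, χ p.1 ∂(P Ω) := by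
  have := fin_Qc H hχ
  have h := int_Qc (E := ℝ) hχ h0 (fun _ => (1 : ℝ))
  simp only [smul_eq_mul, mul_one] at h
  rw [← h, integral_const, smul_eq_mul, mul_one]
  rfl

theorem integrable_Qc {χ : ℂ → ℝ} (hχ : TF Ω χ) (h0 : ∀ z, 0 ≤ χ z)
    {F : ℂ × (ℝ × Bool) → ℝ} (hF : Integrable (fun p => χ p.1 * F p) (P Ω)) :
    Integrable F (Qc Ω χ) := by
  unfold Qc
  rw [integrable_withDensity_iff_integrable_smul' (chi_meas hχ).ennreal_ofReal
    (Eventually.of_forall fun _ => ENNReal.ofReal_lt_top)]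
  refine hF.congr (Eventually.of_forall fun p => ?_)
  show χ p.1 * F p = (ENNReal.ofReal (χ p.1)).toReal • F p
  rw [ENNReal.toReal_ofReal (h0 _), smul_eq_mul]

theorem mass_chi (H : Hyp Ω lam u) {χ : ℂ → ℝ} (hχ : TF Ω χ) :
    mass Ω * ∫ p, χ p.1 ∂(P Ω) = ∫ z in Ω, χ z / z.im ^ 2 := by
  have := probz H
  have h1 : ∫ p : ℂ × (ℝ × Bool), χ p.1 ∂(P Ω) = ∫ z, χ z ∂(Pz Ω) := by
    have h2 := chi_int H hχ
    unfold P at h2 ⊢
    rw [integral_prod _ h2]
    refine integral_congr_ae (Eventually.of_forall fun z => ?_)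
    simp
  rw [h1, int_Pz (mpos H), smul_eq_mul, ← mul_assoc, mul_inv_cancel₀ (mpos H).ne', one_mul]
  refine integral_congr_ae (Eventually.of_forall fun z => ?_)
  show 1 / z.im ^ 2 * χ z = χ z / z.im ^ 2
  ring

theorem pp (h1 : S_PB) (h2 : S_GM) (h3 : S_PC) : S_PP := by
  intro Ω lam u H γ hγp hγ χ hχ h0 hW hM k w R
  have hfin := fin_Qc H hχ
  have hmY : ∀ n, Measurable fun (p : ℂ × (ℝ × Bool)) (j : Fin k) => Xr (lam n) (u n) (w j) p :=
    fun n => measurable_pi_lambda _ fun j => Complex.measurable_re.comp (X_meas (H.sm n) 0 (w j))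
  have hlim := h3 (ℂ × (ℝ × Bool)) inferInstance (Qc Ω χ) hfin MW inferInstance γ hγp k
    (fun n p j => Xr (lam n) (u n) (w j) p) (fun f j => f (w j)) hmY
    (measurable_pi_lambda _ fun j => meas_eval (w j)) ?_ ?_ ?_ R
  · have e1 : ∀ᶠ n in atTop, mass Ω * ∫ z, MvPolynomial.eval
        (fun j => Xr (lam n) (u n) (w j) z) R ∂(Qc Ω χ) = pMean Ω χ (lam n) (u n) w R := by
      filter_upwards [h1 Ω lam u H χ hχ k w R] with n hn
      rw [hn.2, int_Qc hχ h0]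
      rfl
    have e2 := (hlim.const_mul (mass Ω)).congr' e1
    rw [mass_Qc H hχ h0] at e2
    rw [← mass_chi H hχ]
    have e3 : mass Ω * ((∫ z : MW, MvPolynomial.eval (fun j => z (w j)) R ∂γ) *
        ∫ p, χ p.1 ∂(P Ω)) = (∫ f : MW, MvPolynomial.eval (fun j => f (w j)) R ∂γ) *
        (mass Ω * ∫ p, χ p.1 ∂(P Ω)) := by ring
    rw [e3] at e2
    exact e2
  · intro t
    have hWt := hW (fs w t)
    rw [mass_Qc H hχ h0]
    have e1 : ∫ p, (χ p.1 : ℂ) ∂(P Ω) = ((∫ p, χ p.1 ∂(P Ω) : ℝ) : ℂ) := integral_ofReal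
    rw [e1] at hWt
    have e2 : ∫ f, eγ (fs w t) f ∂γ =
        ∫ z : MW, Complex.exp (I * ((∑ j, t j * z (w j) : ℝ) : ℂ)) ∂γ := by
      refine integral_congr_ae (Eventually.of_forall fun f => ?_)
      show Complex.exp (I * ((Pool.Agent.H992.LB.val (fs w t) f : ℝ) : ℂ)) = _
      rw [val_fs]
      rfl
    rw [e2] at hWt
    refine hWt.congr fun n => ?_
    rw [int_Qc (E := ℂ) hχ h0]
    refine integral_congr_ae (Eventually.of_forall fun p => ?_)
    show (χ p.1 : ℂ) * eX (lam n) (u n) (fs w t) p =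
      χ p.1 • Complex.exp (I * ((∑ j, t j * Xr (lam n) (u n) (w j) p : ℝ) : ℂ))
    rw [Complex.real_smul]
    congr 1
    unfold eX
    have e3 : (Pool.Agent.H992.LB.SX (lam n) (u n) (fs w t) p).re =
        ∑ j, t j * Xr (lam n) (u n) (w j) p := by
      rw [SX_fs, Complex.re_sum]
      refine Finset.sum_congr rfl fun j _ => ?_
      rw [Complex.re_ofReal_mul]
      rfl
    rw [e3]
  · intro j q
    obtain ⟨M, hMb⟩ := hM (w j) q
    refine ⟨M, ?_⟩
    filter_upwards [hMb] with n hn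
    refine ⟨integrable_Qc hχ h0 hn.1, ?_⟩
    rw [int_Qc hχ h0]
    exact hn.2
  · intro j q
    exact (h2 γ hγp hγ).1 (w j) q

end Pool.Agent.H640.PM
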